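import Mathlib
import Pool.Agent.Helper585.Acute.FA3

/-!
A lower bound for the minimum proportion of non-acute angles among n points of the plane.

Four points of the plane never span four acute triangles. A flag algebra type certificate (sums of
squares over labelled configurations of five points, checked by the kernel for all 3-graphs on five
vertices) shows that a system of triples on n points without four points all of whose triples are
in the system has at most 0.5731 n^3 / 6 triples. So about 0.4269 of all triangles have a
non-acute angle.
-/

set_option autoImplicit false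

namespace Pool.Agent.Results.MP_1a78aa_co.LowerBound

open Filter Topology Pool.Agent.Helper585.Acute

theorem result :
    (∀ n : ℕ, 3 ≤ n → 1423 / 10000 - 1 / (n : ℝ) ≤ m n) ∧
    ∃ L : ℝ, Tendsto m atTop (𝓝 L) ∧ 1423 / 10000 ≤ L := by
  refine ⟨m_ge, ?_⟩
  obtain ⟨L, hL⟩ := m_lim
  refine ⟨L, hL, ?_⟩
  have h1 : Tendsto (fun n : ℕ => (1423 / 10000 : ℝ) - 1 / (n : ℝ)) atTop (𝓝 (1423 / 10000 - 0)) :=
    tendsto_const_nhds.sub tendsto_one_div_atTop_nhds_zero_nat
  rw [sub_zero] at h1
  refine le_of_tendsto_of_tendsto h1 hL ?_
  filter_upwards [eventually_ge_atTop 3] with n hn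
  exact m_ge n hn

end Pool.Agent.Results.MP_1a78aa_co.LowerBound
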